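import Pool.Agent.LS60.QKR

set_option autoImplicit false

/-! Quantum dimensions of Kirillov-Reshetikhin modules at level `k`: positivity, the value one,
and vanishing, for all simple types, all nodes `i` and all `m`. -/

namespace Pool.Agent.Results.MP_7ab4bf_al.KRAllNodes

open Pool.Agent.LS60 Pool.Agent.LS60.SimpleData

theorem result {I : Type} [Fintype I] [DecidableEq I] (D : SimpleData I) :
    (∀ i m, ∃! x, D.IsKRClass i m x) ∧
    (∀ k : ℕ, 1 ≤ k → ∀ i : I,
      (∀ m ≤ D.t i * k, ∀ x, D.IsKRClass i m x → 0 < D.qdim k x) ∧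
      (∀ x, D.IsKRClass i 0 x → D.qdim k x = 1) ∧
      (∀ x, D.IsKRClass i (D.t i * k) x → D.qdim k x = 1) ∧
      (∀ x, D.IsKRClass i (D.t i * k + 1) x → D.qdim k x = 0)) ∧
    (∀ Q Q', D.IsKRFamily Q → D.IsKRFamily Q' → Q = Q') ∧
    ∀ Q, D.IsKRFamily Q → ∀ k : ℕ, 1 ≤ k → ∀ i : I,
      (∀ m ≤ D.t i * k, 0 < D.qdim k (Q i m)) ∧
      D.qdim k (Q i 0) = 1 ∧
      D.qdim k (Q i (D.t i * k)) = 1 ∧
      D.qdim k (Q i (D.t i * k + 1)) = 0 := by
  have hne : Nonempty I := nonempty_of_isRoot D.root_θ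
  refine ⟨fun i m => krClass_existsUnique i m, ?_, fun Q Q' hQ hQ' => family_unique hQ hQ', ?_⟩
  · intro k hk i
    exact ⟨fun m hm x hx => krClass_pos i hm hx, fun x hx => krClass_zero i hx,
      fun x hx => krClass_top hk i hx, fun x hx => krClass_vanish hk i hx⟩
  · intro Q hQ k hk i
    exact ⟨fun m hm => q_pos (k := k) hQ k le_rfl i m hm, q_zero hQ i,
      class_top hk (hQ.dem i k), q_vanish hQ hk i⟩

end Pool.Agent.Results.MP_7ab4bf_al.KRAllNodes
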